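import Mathlib

set_option autoImplicit false

namespace Pool.Agent.Results.MP_22519f_co.No

open Finset

/-- The hat game `(D, g, h)` is winnable: each vertex `v` names `g v` of its `h v` colours by a
rule that depends only on the colours of its out-neighbours, and some vertex is always right. -/
def Winnable {V : Type} (E : V → V → Prop) (g h : V → ℕ) : Prop :=
  ∃ f : V → (V → ℕ) → Finset ℕ,
    (∀ v c c', (∀ u, E v u → c u = c' u) → f v c = f v c') ∧
    (∀ v c, f v c ⊆ range (h v) ∧ (f v c).card = g v) ∧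
    ∀ c : V → ℕ, (∀ v, c v < h v) → ∃ v, c v ∈ f v c

/-- `N⁺(S)` is contained in `N⁺(u)` for every `u` in `N⁻(S)`. -/
def Redundant {V : Type} (E : V → V → Prop) (S : Set V) : Prop :=
  ∀ z, (∃ w ∈ S, E w z) → ∀ u, (∃ w ∈ S, E u w) → E u z

/-- Two directed triangles `0 1 2` and `0 3 4`. -/
def D (u v : Fin 5) : Prop :=
  (u, v) ∈ [((0 : Fin 5), (1 : Fin 5)), (1, 2), (2, 0), (0, 3), (3, 4), (4, 0)]

instance : DecidableRel D := fun _ _ => by unfold D; infer_instance

lemma avg {s m : ℕ} (hm : 2 * s < m) (C : Finset ℕ) (hC : C.Nonempty) (B : ℕ → Finset ℕ)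
    (hB : ∀ c c', (B c ∪ B c').card ≤ s) :
    ∃ x < m, C.card ^ 2 < 2 * (C.filter fun c => x ∉ B c).card ^ 2 := by
  by_contra w
  push Not at w
  have e : ∑ x ∈ range m, (C.filter fun c => x ∉ B c).card ^ 2 =
      ∑ p ∈ C ×ˢ C, (range m \ (B p.1 ∪ B p.2)).card := by
    have : ∀ x, (C.filter fun c => x ∉ B c).card ^ 2 =
        ∑ p ∈ C ×ˢ C, if x ∉ B p.1 ∪ B p.2 then 1 else 0 := fun x => by
      rw [sq, ← card_product, ← filter_product, card_filter]
      simp only [mem_union, not_or]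
    simp only [this]
    rw [sum_comm]
    refine sum_congr rfl fun p _ => ?_
    rw [← card_filter, sdiff_eq_filter]
  have h1 : (C ×ˢ C).card • (m - s) ≤ ∑ p ∈ C ×ˢ C, (range m \ (B p.1 ∪ B p.2)).card :=
    card_nsmul_le_sum _ _ _ fun p _ => by
      have := le_card_sdiff (B p.1 ∪ B p.2) (range m)
      have := hB p.1 p.2
      rw [card_range] at *
      omega
  have h2 : ∑ x ∈ range m, 2 * (C.filter fun c => x ∉ B c).card ^ 2 ≤ (range m).card • C.card ^ 2 :=
    sum_le_card_nsmul _ _ _ fun x hx => w x (mem_range.1 hx)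
  rw [← mul_sum, e] at h2
  rw [card_product, ← sq] at h1
  have h3 : 0 < C.card ^ 2 := pow_pos hC.card_pos 2
  simp only [card_range, smul_eq_mul] at h1 h2
  obtain ⟨t, rfl⟩ : ∃ t, m = s + t := ⟨m - s, by omega⟩
  rw [Nat.add_sub_cancel_left] at h1
  nlinarith

lemma path {s m : ℕ} (hm : 2 * s < m) (C : Finset ℕ) (hC : C.Nonempty) (g1 g2 : ℕ → Finset ℕ)
    (h1 : ∀ y, (g1 y).card = s) (h2 : ∀ c, (g2 c).card = s) : ∃ x < m, ∃ C' ⊆ C,
      C.card ^ 2 < 2 * C'.card ^ 2 ∧ ∀ c ∈ C', ∃ y < m, y ∉ g2 c ∧ x ∉ g1 y := by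
  classical
  obtain ⟨x, hx, h⟩ := avg hm C hC
    (fun c => (range m).filter fun x => ∀ y < m, y ∉ g2 c → x ∈ g1 y) fun c c' => by
      obtain ⟨y, hy, e⟩ := exists_mem_notMem_of_card_lt_card (s := g2 c ∪ g2 c') (t := range m) (by
        have := card_union_le (g2 c) (g2 c')
        rw [card_range, h2, h2] at *
        omega)
      rw [mem_union, not_or] at e
      rw [← h1 y]
      exact card_le_card (union_subset (fun x hx => (mem_filter.1 hx).2 y (mem_range.1 hy) e.1)
        fun x hx => (mem_filter.1 hx).2 y (mem_range.1 hy) e.2)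
  refine ⟨x, hx, _, filter_subset _ _, h, fun c hc => ?_⟩
  have := (mem_filter.1 hc).2
  simpa [hx] using this

theorem result : ∃ (k : ℕ) (V : Type) (_ : Fintype V) (E : V → V → Prop) (h : V → ℕ),
    (∀ v, ¬ E v v) ∧ (∀ u v, Relation.ReflTransGen E u v) ∧
    (∀ S : Set V, Redundant E S → S = ∅) ∧ (∃ u v, u ≠ v ∧ ¬ E u v) ∧
    (∀ v, 2 ≤ h v) ∧ (∀ v, k ≤ h v) ∧ h ≠ (fun _ => k) ∧ Winnable E (fun _ => 1) h ∧
    ∀ s m : ℕ, 1 ≤ s → s < m → Winnable E (fun _ => s) (fun _ => m) → m ≤ k * s := by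
  refine ⟨2, Fin 5, inferInstance, D, ![4, 2, 2, 2, 2], by decide, fun u v => ?_, fun S hS => ?_,
    by decide, by decide, by decide, by decide, ?_, ?_⟩
  · have s : ∀ {a b : Fin 5}, D a b → Relation.ReflTransGen D a b := .single
    have a : Relation.ReflTransGen D u 0 := by
      fin_cases u
      exacts [.refl, (s (b := 2) (by decide)).trans (s (by decide)), s (by decide),
        (s (b := 4) (by decide)).trans (s (by decide)), s (by decide)]
    refine a.trans ?_
    fin_cases v
    exacts [.refl, s (by decide), (s (b := 1) (by decide)).trans (s (by decide)), s (by decide),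
      (s (b := 3) (by decide)).trans (s (by decide))]
  · refine Set.eq_empty_of_forall_notMem fun w hw => ?_
    obtain ⟨u, z, a, b, c⟩ := (by decide : ∀ w, ∃ u z, D u w ∧ D w z ∧ ¬ D u z) w
    exact c (hS z ⟨w, hw, b⟩ u ⟨w, hw, a⟩)
  · refine ⟨fun v c => {![c 1 % 2 + 2 * (c 3 % 2), c 2 % 2, c 0 % 2, c 4 % 2, c 0 / 2 % 2] v},
      fun v c c' e => ?_, fun v c => ⟨?_, card_singleton _⟩, fun c hc => ?_⟩
    · fin_cases v
      · simp [e 1 (by decide), e 3 (by decide)]
      · simp [e 2 (by decide)]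
      · simp [e 0 (by decide)]
      · simp [e 4 (by decide)]
      · simp [e 0 (by decide)]
    · fin_cases v <;> simp <;> omega
    · have h0 : c 0 < 4 := hc 0
      have h1 : c 1 < 2 := hc 1
      have h2 : c 2 < 2 := hc 2
      have h3 : c 3 < 2 := hc 3
      have h4 : c 4 < 2 := hc 4
      simp [Fin.exists_fin_succ]
      omega
  · rintro s m hs - ⟨f, f1, f2, f3⟩
    by_contra hm
    push Not at hm
    obtain ⟨x, hx, C, c1, c2, c3⟩ := path hm (range m) (nonempty_range_iff.2 (by omega))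
      (fun y => f 1 fun _ => y) (fun c => f 2 fun _ => c) (fun _ => (f2 _ _).2) fun _ => (f2 _ _).2
    obtain ⟨x', hx', C', d1, d2, d3⟩ := path hm C (card_pos.1 (by
        rcases Nat.eq_zero_or_pos C.card with e | e
        · rw [e] at c2; simp at c2
        · exact e))
      (fun y => f 3 fun _ => y) (fun c => f 4 fun _ => c) (fun _ => (f2 _ _).2) fun _ => (f2 _ _).2
    rw [card_range] at c2
    obtain ⟨c, hc, e⟩ := exists_mem_notMem_of_card_lt_card (s := f 0 ![0, x, 0, x', 0]) (t := C') (by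
      rw [(f2 _ _).2]
      by_contra w
      push Not at w
      nlinarith)
    obtain ⟨y, hy, a2, a1⟩ := c3 c (d1 hc)
    obtain ⟨y', hy', b2, b1⟩ := d3 c hc
    obtain ⟨v, hv⟩ := f3 ![c, x, y, x', y'] fun v => by
      fin_cases v
      exacts [mem_range.1 (c1 (d1 hc)), hx, hy, hx', hy']
    fin_cases v
    · refine e (f1 0 _ _ (fun u hu => ?_) ▸ hv)
      fin_cases u <;> first | rfl | exact absurd hu (by decide)
    · refine a1 (f1 1 _ _ (fun u hu => ?_) ▸ hv)
      fin_cases u <;> first | rfl | exact absurd hu (by decide)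
    · refine a2 (f1 2 _ _ (fun u hu => ?_) ▸ hv)
      fin_cases u <;> first | rfl | exact absurd hu (by decide)
    · refine b1 (f1 3 _ _ (fun u hu => ?_) ▸ hv)
      fin_cases u <;> first | rfl | exact absurd hu (by decide)
    · refine b2 (f1 4 _ _ (fun u hu => ?_) ▸ hv)
      fin_cases u <;> first | rfl | exact absurd hu (by decide)

end Pool.Agent.Results.MP_22519f_co.No
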